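import Mathlib
import Pool.Agent.H34.Miller.Axis

/-!
# Zeros of Miller basis forms on the imaginary axis

For every weight `k = 12ℓ + k'` with `k' ∈ {0, 4, 6, 8, 10, 14}` and every `0 ≤ m ≤ ℓ`, the Faber
polynomial `F_{k,m}` of the Miller basis form `f_{k,m} = q^m + O(q^{ℓ+1})` has no zero in `[1728, ∞)`.
Equivalently `f_{k,m}` has no zero on the line `Re τ = 0` apart from the zero at `i` that comes from
the factor `E_{k'}` when `k' ∈ {6, 10, 14}`.

The proof shows that `F_{k,m}(1728 + y)` has nonnegative coefficients and positive constant term: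
its `y^s` coefficient is the coefficient of `q^{-m}` in `Δ^{-(ℓ-s)} E_{14-k'} E₆^{-2s-2}`.
-/

namespace Pool.Agent.Results.MP_e05153_nt.FaberNoZero

open Pool.Agent.H34.Miller
open ModularForm
open UpperHalfPlane hiding I
open scoped MatrixGroups ComplexOrder

/-- `E₀ = 1`, `E₄`, `E₆`, `E₈ = E₄²`, `E₁₀ = E₄E₆`, `E₁₄ = E₄²E₆` (only these indices are used). -/
noncomputable def Eis (k' : ℕ) (τ : ℍ) : ℂ :=
  if k' = 0 then 1
  else if k' = 4 then E₄ τ
  else if k' = 6 then E₆ τ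
  else if k' = 8 then E₄ τ ^ 2
  else if k' = 10 then E₄ τ * E₆ τ
  else E₄ τ ^ 2 * E₆ τ

/-- The modular function `j = E₄³/Δ`. -/
noncomputable def jInv (τ : ℍ) : ℂ := E₄ τ ^ 3 / ModularForm.discriminant τ

/-- `f = q^m + O(q^{ℓ+1})`: the defining property of the Miller basis form `f_{k,m}`. -/
def IsMiller (ℓ m : ℕ) {k : ℤ} (f : ModularForm 𝒮ℒ k) : Prop :=
  ∀ n ≤ ℓ, (qExpansion 1 f).coeff n = if n = m then 1 else 0

/-- `F` satisfies `f = Δ^ℓ E_{k'} F(j)`: the defining property of the Faber polynomial. -/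
def IsFaber (ℓ k' : ℕ) (f : ℍ → ℂ) (F : Polynomial ℂ) : Prop :=
  ∀ τ : ℍ, f τ = ModularForm.discriminant τ ^ ℓ * Eis k' τ * F.eval (jInv τ)

lemma expo (k' : ℕ) (hk' : k' ∈ ({0, 4, 6, 8, 10, 14} : Finset ℕ)) :
    ∃ a b : ℕ, a ≤ 2 ∧ b ≤ 1 ∧ k' = 4 * a + 6 * b ∧ (∀ τ, Eis k' τ = E₄ τ ^ a * E₆ τ ^ b) ∧
      (b ≠ 0 ↔ k' ∈ ({6, 10, 14} : Finset ℕ)) := by
  simp only [Finset.mem_insert, Finset.mem_singleton] at hk'
  rcases hk' with rfl | rfl | rfl | rfl | rfl | rfl
  · exact ⟨0, 0, by norm_num, by norm_num, by norm_num, fun τ => by simp [Eis], by simp⟩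
  · exact ⟨1, 0, by norm_num, by norm_num, by norm_num, fun τ => by simp [Eis], by simp⟩
  · exact ⟨0, 1, by norm_num, by norm_num, by norm_num, fun τ => by simp [Eis], by simp⟩
  · exact ⟨2, 0, by norm_num, by norm_num, by norm_num, fun τ => by simp [Eis], by simp⟩
  · exact ⟨1, 1, by norm_num, by norm_num, by norm_num, fun τ => by simp [Eis], by simp⟩
  · exact ⟨2, 1, by norm_num, by norm_num, by norm_num, fun τ => by simp [Eis], by simp⟩

lemma jInv_eq (τ : ℍ) : jInv τ = wf τ + 1728 := by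
  have h := discriminant_eq_E₄_cube_sub_E₆_sq τ
  have hd := discriminant_ne_zero τ
  rw [jInv, wf]
  have h2 : E₄ τ ^ 3 = E₆ τ ^ 2 + 1728 * ModularForm.discriminant τ := by
    rw [h]; ring
  rw [h2]
  field_simp

/-- Translation between `F(j)` and `G(w)`. -/
lemma isFaber_iff (ℓ k' a b : ℕ) (hE : ∀ τ, Eis k' τ = E₄ τ ^ a * E₆ τ ^ b) (f : ℍ → ℂ)
    (F : Polynomial ℂ) :
    IsFaber ℓ k' f F ↔ f = phi ℓ a b (F.comp (Polynomial.X + Polynomial.C 1728)) := by
  constructor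
  · intro h
    ext τ
    rw [h τ, phi, hE, Polynomial.eval_comp, jInv_eq]
    simp
  · intro h τ
    rw [h, phi, hE, Polynomial.eval_comp, jInv_eq]
    simp

lemma comp_back (F : Polynomial ℂ) :
    (F.comp (Polynomial.X + Polynomial.C 1728)).comp (Polynomial.X - Polynomial.C 1728) = F := by
  rw [Polynomial.comp_assoc]
  simp

lemma comp_forth (G : Polynomial ℂ) :
    (G.comp (Polynomial.X - Polynomial.C 1728)).comp (Polynomial.X + Polynomial.C 1728) = G := by
  rw [Polynomial.comp_assoc]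
  simp

theorem result (ℓ k' m : ℕ) (hk' : k' ∈ ({0, 4, 6, 8, 10, 14} : Finset ℕ)) (hm : m ≤ ℓ) :
    (∃! f : ModularForm 𝒮ℒ (12 * (ℓ : ℤ) + (k' : ℤ)), IsMiller ℓ m f) ∧
    ∀ f : ModularForm 𝒮ℒ (12 * (ℓ : ℤ) + (k' : ℤ)), IsMiller ℓ m f →
      (∃! F : Polynomial ℂ, IsFaber ℓ k' f F) ∧
      (∀ F : Polynomial ℂ, IsFaber ℓ k' f F →
        F.Monic ∧ F.natDegree = ℓ - m ∧ ∀ x : ℝ, 1728 ≤ x → F.eval (x : ℂ) ≠ 0) ∧
      (∀ τ : ℍ, τ.re = 0 →
        (f τ = 0 ↔ τ = UpperHalfPlane.I ∧ k' ∈ ({6, 10, 14} : Finset ℕ))) := by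
  obtain ⟨a, b, ha, hb, hkab, hE, hb6⟩ := expo k' hk'
  have hw : (12 * (ℓ : ℤ) + (k' : ℤ)) = 12 * (ℓ : ℤ) + (4 * (a : ℤ) + 6 * (b : ℤ)) := by
    rw [hkab]; push_cast; ring
  -- structure of a form of this weight
  have hstr : ∀ f : ModularForm 𝒮ℒ (12 * (ℓ : ℤ) + (k' : ℤ)), ∃ G : Polynomial ℂ,
      G.natDegree ≤ ℓ ∧ (f : ℍ → ℂ) = phi ℓ a b G ∧ qExpansion 1 f = qser ℓ a b G.coeff := by
    intro f
    have h1 : IsMF (12 * (ℓ : ℤ) + (4 * (a : ℤ) + 6 * (b : ℤ))) (f : ℍ → ℂ) :=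
      IsMF.cast ⟨f, rfl⟩ hw
    obtain ⟨G, hG, hf⟩ := structure_thm ℓ a b ha hb f h1
    refine ⟨G, hG, hf, ?_⟩
    have h2 := rep_phi ℓ a b G hG
    rw [← hf] at h2
    exact h1.qExpansion_eq h2
  constructor
  · -- existence and uniqueness of the Miller form
    obtain ⟨G, hG, hGc⟩ := exists_poly ℓ a b ha hb m
    obtain ⟨f, hf⟩ := (isMF_phi ℓ a b G hG).cast hw.symm
    have hfq : qExpansion 1 f = qser ℓ a b G.coeff := by
      have h2 := rep_phi ℓ a b G hG
      rw [← hf] at h2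
      exact IsMF.qExpansion_eq ⟨f, rfl⟩ h2
    refine ⟨f, ?_, ?_⟩
    · intro n hn
      rw [hfq]
      exact hGc n hn
    · intro g hg
      obtain ⟨G', hG', hg', hgq⟩ := hstr g
      have hdiff : G' - G = 0 := by
        apply poly_eq_zero ℓ a b ha hb (G' - G)
        · exact le_trans (Polynomial.natDegree_sub_le _ _) (max_le hG' hG)
        · intro i hi
          have h3 : (G' - G).coeff = G'.coeff + (-1 : ℂ) • G.coeff := by
            ext n
            simp [sub_eq_add_neg]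
          have h4 := hg i hi
          rw [hgq] at h4
          rw [h3, qser_add, qser_smul, map_add, PowerSeries.coeff_smul, hGc i hi, h4, smul_eq_mul]
          ring
      have hGG : G' = G := sub_eq_zero.1 hdiff
      apply DFunLike.coe_injective
      rw [hg', hf, hGG]
  · intro f hf
    obtain ⟨G, hG, hfG, hfq⟩ := hstr f
    have hGc : ∀ i ≤ ℓ, PowerSeries.coeff i (qser ℓ a b G.coeff) = if i = m then 1 else 0 := by
      intro i hi
      rw [← hfq]
      exact hf i hi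
    obtain ⟨hmon, hdeg, hnn, hpos⟩ := miller_coeffs ℓ a b m ha hb hm G hG hGc
    -- every Faber polynomial is the shift of `G`
    have hF : ∀ F : Polynomial ℂ, IsFaber ℓ k' f F → F = G.comp (Polynomial.X - Polynomial.C 1728) := by
      intro F hF
      rw [isFaber_iff ℓ k' a b hE, hfG] at hF
      rw [phi_injective ℓ a b ha hb _ _ hF, comp_back]
    have hF0 : IsFaber ℓ k' f (G.comp (Polynomial.X - Polynomial.C 1728)) := by
      rw [isFaber_iff ℓ k' a b hE, comp_forth, hfG]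
    refine ⟨⟨_, hF0, fun F h => hF F h⟩, ?_, ?_⟩
    · intro F h
      rw [hF F h]
      refine ⟨?_, ?_, ?_⟩
      · exact hmon.comp_X_sub_C 1728
      · rw [Polynomial.natDegree_comp, Polynomial.natDegree_X_sub_C, mul_one, hdeg]
      · intro x hx
        rw [Polynomial.eval_comp]
        have h1 := eval_pos G hnn hpos (x - 1728) (by linarith)
        have h2 : Polynomial.eval (x : ℂ) (Polynomial.X - Polynomial.C (1728 : ℂ)) = ((x - 1728 : ℝ) : ℂ) := by
          simp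
        rw [h2]
        exact h1.ne'
    · intro τ hτ
      obtain ⟨y, hy, hy0⟩ := wf_axis τ hτ
      have h1 := eval_pos G hnn hpos y hy0
      have hd := discriminant_ne_zero τ
      rw [hfG, phi, hy, ← hb6, ← eis_axis a b τ hτ]
      constructor
      · intro h
        rcases mul_eq_zero.1 h with h2 | h2
        · rcases mul_eq_zero.1 h2 with h3 | h3
          · exact absurd h3 (pow_ne_zero _ hd)
          · exact h3
        · exact absurd h2 h1.ne'
      · intro h
        rw [h, mul_zero, zero_mul]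

end Pool.Agent.Results.MP_e05153_nt.FaberNoZero
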